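import Mathlib
import Pool.Agent.Helper92.TG.GoalsX

/-!
Packet TG-HTAB of project TG (MP_a41896_nt).
-/

set_option autoImplicit false

open Polynomial

namespace Pool.Agent.Helper4.TG.HTAB

open Height

/-- Bezout relation with degree bounds -/
theorem bez {K : Type} [Field K] {A B : K[X]} (h : IsCoprime A B)
    (hd : B.natDegree < A.natDegree) (P : K[X]) (hP : P.natDegree ≤ 2 * A.natDegree) :
    ∃ u v : K[X], u * A + v * B = P ∧ u.natDegree ≤ A.natDegree ∧ v.natDegree ≤ A.natDegree := by
  obtain ⟨U, V, hUV⟩ := h
  have hA0 : A.natDegree ≠ 0 := by omega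
  have hv : ((P * V) % A).natDegree < A.natDegree := natDegree_mod_lt _ hA0
  have h1 : A * ((P * V) / A) + (P * V) % A = P * V := EuclideanDomain.div_add_mod _ _
  have h2 : (P * U + (P * V) / A * B) * A + (P * V) % A * B = P := by
    calc (P * U + (P * V) / A * B) * A + (P * V) % A * B
        = P * U * A + (A * ((P * V) / A) + (P * V) % A) * B := by ring
      _ = P * (U * A + V * B) := by rw [h1]; ring
      _ = P := by rw [hUV, mul_one]
  refine ⟨_, _, h2, ?_, hv.le⟩
  set u := P * U + (P * V) / A * B with hu
  rcases eq_or_ne u 0 with h0 | h0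
  · rw [h0, natDegree_zero]
    omega
  have hA : A ≠ 0 := by
    rintro rfl
    simp at hA0
  have h3 : u * A = P - (P * V) % A * B := by
    rw [eq_sub_iff_add_eq]
    exact h2
  have h4 : (u * A).natDegree ≤ 2 * A.natDegree := by
    rw [h3]
    refine (natDegree_sub_le _ _).trans (max_le hP ?_)
    refine natDegree_mul_le.trans ?_
    omega
  rw [natDegree_mul h0 hA] at h4
  omega

/-- Packet TG-HTAB. -/
theorem t : Pool.Agent.Helper92.TG.HTAB := by
  intro K _ _ A B hAB hB hd
  set n := A.natDegree with hn
  obtain ⟨u0, v0, h0, hu0, hv0⟩ := bez hAB hd (X ^ (n + n)) (by rw [natDegree_X_pow]; omega)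
  obtain ⟨u1, v1, h1, hu1, hv1⟩ := bez hAB hd 1 (by rw [natDegree_one]; omega)
  have hBn : B.natDegree ≤ n := by omega
  set p : Fin 2 → MvPolynomial (Fin 2) K := ![A.homogenize n, B.homogenize n] with hp
  set q : Fin 2 × Fin 2 → MvPolynomial (Fin 2) K := fun a =>
    (![![u0, v0], ![u1, v1]] a.1 a.2).homogenize n with hq
  have hph : ∀ i, (p i).IsHomogeneous n := by
    intro i
    fin_cases i
    · exact isHomogeneous_homogenize A
    · exact isHomogeneous_homogenize B
  have hqh : ∀ a, (q a).IsHomogeneous n := fun a => isHomogeneous_homogenize _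
  have hev : ∀ (P : K[X]) (x : K), P.natDegree ≤ n →
      MvPolynomial.eval ![x, 1] (P.homogenize n) = eval x P := fun P x hP => by
    have := eval_homogenize hP ![x, 1] (by simp)
    simpa using this
  obtain ⟨C1, hC1⟩ := logHeight_eval_le' (K := K) hph
  obtain ⟨C2, hC2⟩ := logHeight_eval_ge' (K := K) (N := n) (ι' := Fin 2) hqh
  refine ⟨max C1 (-C2), fun x hx => ?_⟩
  have e1 : (fun j => MvPolynomial.eval ![x, 1] (p j)) = ![eval x A, eval x B] := by
    funext j
    fin_cases j
    · exact hev A x le_rfl
    · exact hev B x hBn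
  have e2 : logHeight₁ (eval x A / eval x B) =
      logHeight (fun j => MvPolynomial.eval ![x, 1] (p j)) := by
    rw [e1]
    exact logHeight₁_div_eq_logHeight _ _
  rw [e2, logHeight₁_eq_logHeight]
  have h2 := hC1 ![x, 1]
  have h3 := hC2 p (x := ![x, 1]) (by
    intro k
    have e3 : ∀ j, MvPolynomial.eval ![x, 1] (q (k, j)) = eval x (![![u0, v0], ![u1, v1]] k j) := by
      intro j
      refine hev _ x ?_
      fin_cases k <;> fin_cases j
      · exact hu0
      · exact hv0
      · exact hu1
      · exact hv1
    rw [Fin.sum_univ_two, e3, e3]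
    have e4 := congrFun e1 0
    have e5 := congrFun e1 1
    simp only [Matrix.cons_val_zero, Matrix.cons_val_one] at e4 e5
    rw [e4, e5]
    fin_cases k
    · have := congrArg (eval x) h0
      simpa using this
    · have := congrArg (eval x) h1
      simpa using this)
  rw [abs_le]
  constructor
  · have := le_max_right C1 (-C2)
    linarith
  · have := le_max_left C1 (-C2)
    linarith

end Pool.Agent.Helper4.TG.HTAB
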